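import Pool.Agent.Lib.MP_5938af_an.Main

open Pool.Agent.Lib.MP_5938af_an

/-- Q2, negated form: there is a cw-hyperbolic homeomorphism of a nonempty compact metric space
without periodic points. -/
theorem Pool.Agent.Results.MP_5938af_an.NoPeriodicPoint.result :
    ∃ (X : Type) (_ : MetricSpace X) (_ : CompactSpace X) (_ : Nonempty X) (f : X ≃ₜ X),
      CwHyperbolic f ∧ Per f = ∅ :=
  ⟨Xs, inferInstance, inferInstance, inferInstance, shift, shift_cwHyperbolic, shift_no_periodic⟩
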