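import Pool.Agent.Lib.MP_5938af_an.Main

open Pool.Agent.Lib.MP_5938af_an

/-- Q1, negated form: there is a cw-hyperbolic homeomorphism of a nonempty compact metric space
and a non-wandering point that is not in the closure of the periodic points. -/
theorem Pool.Agent.Results.MP_5938af_an.PerNotDense.result :
    ∃ (X : Type) (_ : MetricSpace X) (_ : CompactSpace X) (_ : Nonempty X) (f : X ≃ₜ X),
      CwHyperbolic f ∧ ∃ x ∈ NonWandering f, x ∉ closure (Per f) := by
  obtain ⟨x, hx⟩ := nonWandering_nonempty shift
  refine ⟨Xs, inferInstance, inferInstance, inferInstance, shift, shift_cwHyperbolic, x, hx, ?_⟩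
  rw [shift_no_periodic, closure_empty]
  exact Set.notMem_empty x
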